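import Pool.Agent.helper83.LS.Spec

set_option autoImplicit false

namespace LSH

open Relation

/-- `w` is a child of `u` -/
def RE_Ch {n : ℕ} (T : SimpleGraph (Fin n)) (r u w : Fin n) : Prop :=
  T.Adj u w ∧ T.dist r w = T.dist r u + 1

theorem RE_dist_le {n : ℕ} (T : SimpleGraph (Fin n)) (r : Fin n) {v w : Fin n}
    (h : ReflTransGen (RE_Ch T r) v w) : v = w ∨ T.dist r v < T.dist r w := by
  induction h with
  | refl => exact Or.inl rfl
  | tail _ hc ih =>
    right
    rcases ih with ih | ih
    · rw [ih]; have := hc.2; omega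
    · have := hc.2; omega

theorem RE_uniq {n : ℕ} (T : SimpleGraph (Fin n)) (r : Fin n)
    (hpar : ∀ v, v ≠ r → ∃! u, T.Adj u v ∧ T.dist r v = T.dist r u + 1) {a b w : Fin n}
    (h : ReflTransGen (RE_Ch T r) a w) :
    ReflTransGen (RE_Ch T r) b w → T.dist r a = T.dist r b → a = b := by
  induction h with
  | refl =>
    intro hb hd
    rcases RE_dist_le T r hb with h | h
    · exact h.symm
    · omega
  | @tail w' w hw' hc ih =>
    intro hb hd
    rcases ReflTransGen.cases_tail hb with h | ⟨c, hbc, hcw⟩
    · have h1 := RE_dist_le T r hw'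
      have h2 := hc.2
      subst h
      rcases h1 with h1 | h1
      · subst h1; omega
      · omega
    · have hne : w ≠ r := by
        intro h
        have h2 := hc.2
        rw [h, SimpleGraph.dist_self] at h2
        omega
      have hcw' : c = w' := (hpar w hne).unique hcw hc
      subst hcw'
      exact ih hbc hd

theorem RE_build {n : ℕ} (T : SimpleGraph (Fin n)) (r : Fin n)
    (hpar : ∀ v, v ≠ r → ∃! u, T.Adj u v ∧ T.dist r v = T.dist r u + 1)
    (hlt : ∀ v, T.dist r v < n)
    (hch : ∀ v, {w | RE_Ch T r v w}.ncard ≤ 2) :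
    ∀ (N : ℕ) (v : Fin n), n ≤ T.dist r v + N →
      ∃ t : LT (Fin n), t.root = v ∧ t.verts.Nodup ∧
        (∀ w, w ∈ t.verts ↔ ReflTransGen (RE_Ch T r) v w) ∧
        (∀ u w, (u, w) ∈ t.edg ↔ ReflTransGen (RE_Ch T r) v u ∧ RE_Ch T r u w) := by
  intro N
  induction N with
  | zero => intro v hv; have := hlt v; omega
  | succ N ih =>
    intro v hv
    have hIH : ∀ c, RE_Ch T r v c → ∃ t : LT (Fin n), t.root = c ∧ t.verts.Nodup ∧
        (∀ w, w ∈ t.verts ↔ ReflTransGen (RE_Ch T r) c w) ∧
        (∀ u w, (u, w) ∈ t.edg ↔ ReflTransGen (RE_Ch T r) c u ∧ RE_Ch T r u w) := by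
      intro c hc
      apply ih
      have := hc.2
      omega
    have hvnot : ∀ c, RE_Ch T r v c → ¬ ReflTransGen (RE_Ch T r) c v := by
      intro c hc h
      have h1 := RE_dist_le T r h
      have h2 := hc.2
      rcases h1 with h1 | h1
      · subst h1; omega
      · omega
    have h2 := hch v
    have h3 : {w | RE_Ch T r v w}.ncard = 0 ∨ {w | RE_Ch T r v w}.ncard = 1 ∨
        {w | RE_Ch T r v w}.ncard = 2 := by omega
    rcases h3 with h3 | h3 | h3
    · -- no child
      have hnone : ∀ w, ¬ RE_Ch T r v w := by
        intro w hw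
        have h4 : {w | RE_Ch T r v w} = ∅ := (Set.ncard_eq_zero (Set.toFinite _)).mp h3
        have : w ∈ {w | RE_Ch T r v w} := hw
        rw [h4] at this
        exact this
      have hD : ∀ w, ReflTransGen (RE_Ch T r) v w ↔ w = v := by
        intro w
        constructor
        · intro h
          rcases ReflTransGen.cases_head h with h | ⟨c, hc, _⟩
          · exact h.symm
          · exact absurd hc (hnone c)
        · rintro rfl
          exact ReflTransGen.refl
      refine ⟨.leaf v, rfl, by simp [LT.verts], ?_, ?_⟩
      · intro w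
        rw [hD]
        simp [LT.verts]
      · intro u w
        rw [hD]
        simp only [LT.edg, List.not_mem_nil, false_iff, not_and]
        rintro rfl
        exact hnone w
    · -- one child
      obtain ⟨a, ha⟩ := Set.ncard_eq_one.mp h3
      have hmem : ∀ w, RE_Ch T r v w ↔ w = a := by
        intro w
        have : w ∈ {w | RE_Ch T r v w} ↔ w ∈ ({a} : Set (Fin n)) := by rw [ha]
        simpa using this
      have hca : RE_Ch T r v a := (hmem a).mpr rfl
      obtain ⟨ta, hroot, hnd, hv1, he1⟩ := hIH a hca
      have hD : ∀ w, ReflTransGen (RE_Ch T r) v w ↔ w = v ∨ ReflTransGen (RE_Ch T r) a w := by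
        intro w
        constructor
        · intro h
          rcases ReflTransGen.cases_head h with h | ⟨c, hc, hcw⟩
          · exact Or.inl h.symm
          · rw [hmem] at hc
            subst hc
            exact Or.inr hcw
        · rintro (rfl | h)
          · exact ReflTransGen.refl
          · exact ReflTransGen.head hca h
      refine ⟨.un v ta, rfl, ?_, ?_, ?_⟩
      · simp only [LT.verts, List.nodup_cons]
        refine ⟨?_, hnd⟩
        rw [hv1]
        exact hvnot a hca
      · intro w
        rw [hD]
        simp only [LT.verts, List.mem_cons]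
        rw [hv1]
      · intro u w
        simp only [LT.edg, List.mem_cons, Prod.mk.injEq]
        rw [he1, hD, hroot]
        constructor
        · rintro (⟨rfl, rfl⟩ | ⟨h4, h5⟩)
          · exact ⟨Or.inl rfl, hca⟩
          · exact ⟨Or.inr h4, h5⟩
        · rintro ⟨rfl | h4, h5⟩
          · rw [hmem] at h5
            exact Or.inl ⟨rfl, h5⟩
          · exact Or.inr ⟨h4, h5⟩
    · -- two children
      obtain ⟨a, b, hab, hset⟩ := Set.ncard_eq_two.mp h3
      have hmem : ∀ w, RE_Ch T r v w ↔ (w = a ∨ w = b) := by
        intro w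
        have : w ∈ {w | RE_Ch T r v w} ↔ w ∈ ({a, b} : Set (Fin n)) := by rw [hset]
        simpa using this
      have hca : RE_Ch T r v a := (hmem a).mpr (Or.inl rfl)
      have hcb : RE_Ch T r v b := (hmem b).mpr (Or.inr rfl)
      obtain ⟨ta, hroota, hnda, hva, hea⟩ := hIH a hca
      obtain ⟨tb, hrootb, hndb, hvb, heb⟩ := hIH b hcb
      have hD : ∀ w, ReflTransGen (RE_Ch T r) v w ↔
          w = v ∨ ReflTransGen (RE_Ch T r) a w ∨ ReflTransGen (RE_Ch T r) b w := by
        intro w
        constructor
        · intro h
          rcases ReflTransGen.cases_head h with h | ⟨c, hc, hcw⟩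
          · exact Or.inl h.symm
          · rw [hmem] at hc
            rcases hc with rfl | rfl
            · exact Or.inr (Or.inl hcw)
            · exact Or.inr (Or.inr hcw)
        · rintro (rfl | h | h)
          · exact ReflTransGen.refl
          · exact ReflTransGen.head hca h
          · exact ReflTransGen.head hcb h
      refine ⟨.br v ta tb, rfl, ?_, ?_, ?_⟩
      · simp only [LT.verts, List.nodup_cons, List.mem_append, List.nodup_append]
        refine ⟨?_, hnda, hndb, ?_⟩
        · rw [hva, hvb]
          rintro (h | h)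
          · exact hvnot a hca h
          · exact hvnot b hcb h
        · intro x hx y hy hxy
          subst hxy
          rw [hva] at hx
          rw [hvb] at hy
          apply hab
          apply RE_uniq T r hpar hx hy
          rw [hca.2, hcb.2]
      · intro w
        rw [hD]
        simp only [LT.verts, List.mem_cons, List.mem_append]
        rw [hva, hvb]
      · intro u w
        simp only [LT.edg, List.mem_append, List.mem_cons, Prod.mk.injEq]
        rw [hea, heb, hD, hroota, hrootb]
        constructor
        · rintro ((⟨rfl, rfl⟩ | ⟨h4, h5⟩) | (⟨rfl, rfl⟩ | ⟨h4, h5⟩))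
          · exact ⟨Or.inl rfl, hca⟩
          · exact ⟨Or.inr (Or.inl h4), h5⟩
          · exact ⟨Or.inl rfl, hcb⟩
          · exact ⟨Or.inr (Or.inr h4), h5⟩
        · rintro ⟨rfl | h4 | h4, h5⟩
          · rw [hmem] at h5
            rcases h5 with h5 | h5
            · exact Or.inl (Or.inl ⟨rfl, h5⟩)
            · exact Or.inr (Or.inl ⟨rfl, h5⟩)
          · exact Or.inl (Or.inr ⟨h4, h5⟩)
          · exact Or.inr (Or.inr ⟨h4, h5⟩)

theorem RE (hTR : TR_stmt) : RE_stmt := by
  intro n T hT hdeg r hr
  obtain ⟨h1, hpar, -⟩ := hTR n T hT r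
  have hlt : ∀ v, T.dist r v < n := by
    intro v
    obtain ⟨p, hp, hpl⟩ := hT.connected.exists_path_of_dist r v
    have := hp.length_lt
    rw [Fintype.card_fin] at this
    omega
  have hch : ∀ v, {w | RE_Ch T r v w}.ncard ≤ 2 := by
    intro v
    by_cases hv : v = r
    · subst hv
      refine le_trans (Set.ncard_le_ncard ?_ (Set.toFinite _)) hr
      intro w hw
      exact hw.1
    · obtain ⟨u, ⟨hu, hud⟩, -⟩ := hpar v hv
      have hsub : insert u {w | RE_Ch T r v w} ⊆ T.neighborSet v := by
        intro w hw
        rcases Set.mem_insert_iff.mp hw with h | h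
        · subst h; exact hu.symm
        · exact h.1
      have hnot : u ∉ {w | RE_Ch T r v w} := by
        intro h
        have h2 : T.dist r u = T.dist r v + 1 := h.2
        omega
      have h3 := Set.ncard_le_ncard hsub (Set.toFinite _)
      rw [Set.ncard_insert_of_notMem hnot (Set.toFinite _)] at h3
      have := hdeg v
      omega
  obtain ⟨t, hroot, hnd, hvt, het⟩ := RE_build T r hpar hlt hch n r (by omega)
  have hall : ∀ (m : ℕ) (w : Fin n), T.dist r w = m → ReflTransGen (RE_Ch T r) r w := by
    intro m
    induction m with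
    | zero =>
      intro w hw
      have : r = w := by
        rw [hT.connected.dist_eq_zero_iff] at hw
        exact hw
      rw [this]
    | succ m ih =>
      intro w hw
      have hne : w ≠ r := by
        rintro rfl
        rw [SimpleGraph.dist_self] at hw
        omega
      obtain ⟨u, ⟨hu, hud⟩, -⟩ := hpar w hne
      exact ReflTransGen.tail (ih u (by omega)) ⟨hu, hud⟩
  refine ⟨t, hroot, hnd, ?_, ?_⟩
  · intro v
    rw [hvt]
    exact hall _ v rfl
  · intro u v
    rw [het]
    constructor
    · rintro ⟨_, h⟩; exact h
    · intro h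
      exact ⟨hall _ u rfl, h⟩

end LSH
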