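import Pool.Agent.helper83.LS.Spec

set_option autoImplicit false

namespace LSH

theorem RW1_on_false (a b z : Pt) : (⟨a, b, false⟩ : Edge).on z ↔
    (z.1 = a.1 ∧ z.2 ∈ Set.uIcc a.2 b.2) ∨ (z.2 = b.2 ∧ z.1 ∈ Set.uIcc a.1 b.1) := by
  simp [Edge.on]

theorem RW1_on_true (a b z : Pt) : (⟨a, b, true⟩ : Edge).on z ↔
    (z.2 = a.2 ∧ z.1 ∈ Set.uIcc a.1 b.1) ∨ (z.1 = b.1 ∧ z.2 ∈ Set.uIcc a.2 b.2) := by
  simp [Edge.on]

theorem RW1_box (hOB : OB_stmt) (hEE : EE_stmt) {Y : Finset Pt} {d : PT} (hY : d.pts = Y.val)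
    {f : Edge} (hf : f ∈ d.edges) {z : Pt} (hz : f.on z) :
    (∃ y ∈ Y, y.1 ≤ z.1) ∧ (∃ y ∈ Y, z.1 ≤ y.1) ∧ (∃ y ∈ Y, y.2 ≤ z.2) ∧ (∃ y ∈ Y, z.2 ≤ y.2) := by
  obtain ⟨h1, h2⟩ := hOB.1 f z hz
  obtain ⟨ha, hb⟩ := hEE.1 d f hf
  rw [hY] at ha hb
  have ha' : f.a ∈ Y := ha
  have hb' : f.b ∈ Y := hb
  rw [Set.mem_uIcc] at h1 h2
  refine ⟨?_, ?_, ?_, ?_⟩
  · rcases h1 with h1 | h1
    · exact ⟨_, ha', h1.1⟩
    · exact ⟨_, hb', h1.1⟩
  · rcases h1 with h1 | h1
    · exact ⟨_, hb', h1.2⟩
    · exact ⟨_, ha', h1.2⟩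
  · rcases h2 with h2 | h2
    · exact ⟨_, ha', h2.1⟩
    · exact ⟨_, hb', h2.1⟩
  · rcases h2 with h2 | h2
    · exact ⟨_, hb', h2.2⟩
    · exact ⟨_, ha', h2.2⟩

theorem RW1_gen_mono {S T : Set Pt} (h : S ⊆ T) (hT : Gen T) : Gen S :=
  fun a ha b hb hab => hT a (h ha) b (h hb) hab

theorem RW1 (hOB : OB_stmt) (hEE : EE_stmt) (hAB : AB_stmt) (hDP : DP_stmt) : RW1_stmt := by
  intro s t hs ht S Q p hcard hgen hleft hQS hQcard hQx hex
  obtain ⟨q₀, hq₀, hq₀p⟩ := hex
  obtain ⟨c, hc, hcmin⟩ := Finset.exists_min_image Q (fun q => q.2) ⟨q₀, hq₀⟩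
  have hcp : c.2 < p.2 := lt_of_le_of_lt (hcmin q₀ hq₀) hq₀p
  have hcS : c ∈ S := hQS hc
  have hpc : p.1 < c.1 := hleft c hcS
  have hgenS : Gen (S : Set Pt) := RW1_gen_mono (Set.subset_insert _ _) hgen
  -- the set for `s`
  have hYc : (Q.erase c).card = s.size := by
    rw [Finset.card_erase_of_mem hc, hQcard]; omega
  have hYlow : ∀ y ∈ Q.erase c, c.2 < y.2 := by
    intro y hy
    rw [Finset.mem_erase] at hy
    have h1 := hcmin y hy.2
    have h2 := (hgenS y (hQS hy.2) c hcS hy.1).2
    exact lt_of_le_of_ne h1 h2.symm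
  have hgY : Gen (insert c ((Q.erase c : Finset Pt) : Set Pt)) := by
    apply RW1_gen_mono _ hgenS
    intro x hx
    rcases Set.mem_insert_iff.mp hx with h | h
    · subst h; exact hcS
    · exact hQS (Finset.mem_of_mem_erase h)
  obtain ⟨d, hd⟩ := (hDP s hs (Q.erase c) c hYc hgY).2.1 hYlow
  -- the set for `t`
  have hXc : (S \ Q).card = t.size := by
    rw [Finset.card_sdiff_of_subset hQS, hcard, hQcard]
    simp only [BT.size]
    omega
  have hXright : ∀ x ∈ S \ Q, c.1 < x.1 := fun x hx => hQx c hc x hx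
  have hgX : Gen (insert c ((S \ Q : Finset Pt) : Set Pt)) := by
    apply RW1_gen_mono _ hgenS
    intro x hx
    rcases Set.mem_insert_iff.mp hx with h | h
    · subst h; exact hcS
    · exact (Finset.mem_sdiff.mp h).1
  obtain ⟨e, k, he, hk⟩ := ht (S \ Q) c hXc hgX hXright
  -- facts on the drawings
  have hdr : d.root ∈ Q.erase c := by
    have := hEE.2.1 d
    rw [hd.2.1] at this
    exact this
  have her : e.root ∈ S \ Q := by
    have := hEE.2.1 e
    rw [he.2.1] at this
    exact this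
  have hdrQ : d.root ∈ Q := Finset.mem_of_mem_erase hdr
  have hdr2 : c.2 < d.root.2 := hYlow _ hdr
  have hdr1 : p.1 < d.root.1 := hleft _ (hQS hdrQ)
  have her1 : c.1 < e.root.1 := hXright _ her
  have hde : d.root.1 < e.root.1 := hQx _ hdrQ _ her
  have hdbox : ∀ f ∈ d.edges, ∀ z, f.on z → c.2 < z.2 ∧ p.1 < z.1 ∧ ∀ x ∈ S \ Q, z.1 < x.1 := by
    intro f hf z hz
    obtain ⟨⟨y1, hy1, h1⟩, ⟨y2, hy2, h2⟩, ⟨y3, hy3, h3⟩, -⟩ := RW1_box hOB hEE hd.2.1 hf hz
    refine ⟨lt_of_lt_of_le (hYlow y3 hy3) h3,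
      lt_of_lt_of_le (hleft y1 (hQS (Finset.mem_of_mem_erase hy1))) h1, ?_⟩
    intro x hx
    exact lt_of_le_of_lt h2 (hQx y2 (Finset.mem_of_mem_erase hy2) x hx)
  have hebox : ∀ g ∈ e.edges, ∀ z, g.on z → ∃ x ∈ S \ Q, x.1 ≤ z.1 := by
    intro g hg z hz
    exact (RW1_box hOB hEE he.2.1 hg hz).1
  have hfin : insert c (Q.erase c ∪ S \ Q) = S := by
    ext x
    simp only [Finset.mem_insert, Finset.mem_union, Finset.mem_erase, Finset.mem_sdiff]
    constructor
    · rintro (rfl | ⟨_, h⟩ | ⟨h, _⟩)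
      · exact hcS
      · exact hQS h
      · exact h
    · intro hx
      by_cases hxc : x = c
      · exact Or.inl hxc
      · by_cases hxQ : x ∈ Q
        · exact Or.inr (Or.inl ⟨hxc, hxQ⟩)
        · exact Or.inr (Or.inr ⟨hx, hxQ⟩)
  refine ⟨.br c false d k e, ?_, hcp⟩
  have key := hAB p c false false k s t (Q.erase c) (S \ Q) d e hd he ?_ ?_ ?_ ?_ ?_ ?_
  · rw [hfin] at key
    exact key
  · rw [Finset.disjoint_left]
    intro x hx hx'
    exact (Finset.mem_sdiff.mp hx').2 (Finset.mem_of_mem_erase hx)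
  · exact Finset.notMem_erase _ _
  · intro h
    exact (Finset.mem_sdiff.mp h).2 hc
  · -- the edge `p c` and `s`
    intro f hf z hz hfz
    rw [RW1_on_false] at hz
    rw [att, List.mem_cons] at hf
    rcases hf with rfl | hf
    · rw [RW1_on_false] at hfz
      simp only [Set.mem_uIcc] at hz hfz
      have hzc : z = c := by
        rcases hz with ⟨h1, h2⟩ | ⟨h1, h2⟩
        · exfalso
          rcases hfz with ⟨h3, _⟩ | ⟨_, h4 | h4⟩
          · linarith
          · linarith [h4.1]
          · linarith [h4.1]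
        · rcases hfz with ⟨h3, _⟩ | ⟨h3, _⟩
          · exact Prod.ext h3 h1
          · exfalso; linarith
      exact ⟨Or.inr hzc, Or.inl hzc⟩
    · exfalso
      obtain ⟨h5, h6, -⟩ := hdbox f hf z hfz
      rcases hz with ⟨h1, h2⟩ | ⟨h1, h2⟩ <;> linarith
  · -- the edge `p c` and `t`
    intro f hf z hz hfz
    rw [RW1_on_false] at hz
    rw [att, List.mem_cons] at hf
    have hz1 : z.1 ≤ c.1 := by
      simp only [Set.mem_uIcc] at hz
      rcases hz with ⟨h1, _⟩ | ⟨h1, h2 | h2⟩
      · linarith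
      · exact h2.2
      · linarith [h2.1, h2.2]
    have hz2 : c.2 ≤ z.2 := by
      simp only [Set.mem_uIcc] at hz
      rcases hz with ⟨h1, h2 | h2⟩ | ⟨h1, h2⟩
      · linarith [h2.1]
      · exact h2.1
      · exact h1.ge
    rcases hf with rfl | hf
    · have hzc : z = c := by
        rcases hk with rfl | hk
        · rw [RW1_on_true] at hfz
          simp only [Set.mem_uIcc] at hfz
          rcases hfz with ⟨h3, h4 | h4⟩ | ⟨h3, _⟩
          · exact Prod.ext (le_antisymm hz1 h4.1) h3
          · exfalso; linarith [h4.1]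
          · exfalso; linarith
        · cases k
          · rw [RW1_on_false] at hfz
            simp only [Set.mem_uIcc] at hfz
            rcases hfz with ⟨h3, h4 | h4⟩ | ⟨h3, _⟩
            · exfalso; linarith [h4.2]
            · exact Prod.ext h3 (le_antisymm h4.2 hz2)
            · exfalso; linarith
          · rw [RW1_on_true] at hfz
            simp only [Set.mem_uIcc] at hfz
            rcases hfz with ⟨h3, h4 | h4⟩ | ⟨h3, _⟩
            · exact Prod.ext (le_antisymm hz1 h4.1) h3
            · exfalso; linarith [h4.1]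
            · exfalso; linarith
      exact ⟨Or.inr hzc, Or.inl hzc⟩
    · exfalso
      obtain ⟨x, hx, hxz⟩ := hebox f hf z hfz
      have := hXright x hx
      linarith
  · -- `s` and `t`
    intro f hf g hg z hfz hgz
    rw [att, List.mem_cons] at hf hg
    rcases hg with rfl | hg
    · rcases hf with rfl | hf
      · have hzc : z = c := by
          rw [RW1_on_false] at hfz
          simp only [Set.mem_uIcc] at hfz
          have hz2 : c.2 ≤ z.2 := by
            rcases hfz with ⟨h3, h4 | h4⟩ | ⟨h3, _⟩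
            · exact h4.1
            · linarith [h4.1]
            · linarith
          have hz1 : z.1 < e.root.1 := by
            rcases hfz with ⟨h3, _⟩ | ⟨_, h4 | h4⟩
            · linarith
            · linarith [h4.2]
            · linarith [h4.2]
          have hT : (⟨c, e.root, true⟩ : Edge).on z → z = c := by
            intro h
            rw [RW1_on_true] at h
            simp only [Set.mem_uIcc] at h
            rcases h with ⟨h5, _⟩ | ⟨h5, _⟩
            · rcases hfz with ⟨h3, _⟩ | ⟨h3, _⟩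
              · exact Prod.ext h3 h5
              · exfalso; linarith
            · exfalso; linarith
          cases k
          · rcases hk with hk | hk
            · exact absurd hk (by simp)
            rw [RW1_on_false] at hgz
            simp only [Set.mem_uIcc] at hgz
            rcases hgz with ⟨h5, h6 | h6⟩ | ⟨h5, _⟩
            · exfalso; linarith [h6.2]
            · exact Prod.ext h5 (le_antisymm h6.2 hz2)
            · exfalso; linarith
          · exact hT hgz
        exact ⟨Or.inl hzc, Or.inl hzc⟩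
      · exfalso
        obtain ⟨h5, h6, h7⟩ := hdbox f hf z hfz
        have h8 := h7 _ her
        cases k
        · rcases hk with hk | hk
          · exact absurd hk (by simp)
          rw [RW1_on_false] at hgz
          simp only [Set.mem_uIcc] at hgz
          rcases hgz with ⟨h9, h10 | h10⟩ | ⟨h9, _⟩
          · linarith [h10.2]
          · linarith [h10.2]
          · linarith
        · rw [RW1_on_true] at hgz
          simp only [Set.mem_uIcc] at hgz
          rcases hgz with ⟨h9, _⟩ | ⟨h9, _⟩ <;> linarith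
    · exfalso
      obtain ⟨x, hx, hxz⟩ := hebox g hg z hgz
      rcases hf with rfl | hf
      · rw [RW1_on_false] at hfz
        simp only [Set.mem_uIcc] at hfz
        have h1 := hXright x hx
        have h2 := hQx _ hdrQ x hx
        rcases hfz with ⟨h3, _⟩ | ⟨_, h4 | h4⟩
        · linarith
        · linarith [h4.2]
        · linarith [h4.2]
      · have := (hdbox f hf z hfz).2.2 x hx
        linarith

end LSH
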