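import Pool.Agent.helper83.LS.Spec

set_option autoImplicit false

namespace LSH

theorem TR : TR_stmt := by
  intro n T hT r
  have hcon : T.Connected := hT.connected
  have h1 : ∀ u v, T.Adj u v → T.dist r v = T.dist r u + 1 ∨ T.dist r u = T.dist r v + 1 := by
    intro u v h
    rcases hT.dist_eq_dist_add_one_of_adj r h with h' | h'
    · exact Or.inr h'
    · exact Or.inl h'
  refine ⟨h1, ?_, ?_⟩
  · intro v hv
    obtain ⟨p, hp, hpl⟩ := hcon.exists_path_of_dist r v
    have hpos : 0 < T.dist r v := hcon.pos_dist_of_ne hv.symm
    have hnil : ¬ p.Nil := by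
      intro h
      have := SimpleGraph.Walk.nil_iff_length_eq.mp h
      omega
    have hadj : T.Adj p.penultimate v := p.adj_penultimate hnil
    refine ⟨p.penultimate, ⟨hadj, ?_⟩, ?_⟩
    · have h2 : T.dist r p.penultimate ≤ p.dropLast.length := SimpleGraph.dist_le _
      have h3 : p.dropLast.length + 1 = p.length := by
        have := SimpleGraph.Walk.length_dropLast_add_one hnil
        exact this
      rcases h1 _ _ hadj with h4 | h4 <;> omega
    · rintro u ⟨hu, hd⟩
      obtain ⟨q, hq, hql⟩ := hcon.exists_path_of_dist r u
      have h5 : (q.concat hu).length = T.dist r v := by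
        rw [SimpleGraph.Walk.length_concat, hql, hd]
      have h6 := (q.concat hu).isPath_of_length_eq_dist h5
      have h7 : p = q.concat hu := by
        have := hT.isAcyclic.subsingleton_path r v |>.elim ⟨p, hp⟩ ⟨_, h6⟩
        exact Subtype.mk.inj this
      apply hT.isAcyclic.eq_penultimate_of_adj_end hp hu.symm
      rw [h7]
      exact q.support_subset_support_concat _ q.end_mem_support
  · intro u v w hvw hw hv
    have h2 : T.dist r w ≤ T.dist r u + T.dist u w := hcon.dist_triangle
    have h3 : T.dist u w ≤ T.dist u v + T.dist v w := hcon.dist_triangle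
    have h4 : T.dist v w = 1 := SimpleGraph.dist_eq_one_iff_adj.mpr hvw
    omega

end LSH
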